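import Pool.Agent.Helper96.CT.Stmts2

/-!
# Row EM of the sheet CT, part 2 (MP_5ec5e0_co)
-/

set_option autoImplicit false

namespace Pool.Agent.Helper32.CT

open SimpleGraph Pool.Agent.Helper96.CT

/-- removing leaves at `p` keeps a tree connected -/
theorem em_reach {W : Type} (T : SimpleGraph W) (A : Set W) (p : W) (hp : p ∈ A)
    (hL : ∀ b, b ∉ A → ∀ u, T.Adj b u → u = p) :
    ∀ (a : W) (_ : T.Walk a p) (ha : a ∈ A), (T.induce A).Reachable ⟨a, ha⟩ ⟨p, hp⟩ := by
  intro a w
  induction w with
  | nil => intro ha; exact Reachable.refl _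
  | @cons a b c h w ih =>
    intro ha
    by_cases hb : b ∈ A
    · have h1 : (T.induce A).Adj ⟨a, ha⟩ ⟨b, hb⟩ := h
      exact h1.reachable.trans (ih hp hL hb)
    · have h2 : a = c := hL b hb a h.symm
      subst h2
      exact Reachable.refl _

theorem st_EM (h1 : ST_PQ) (h2 : ST_GR) : ST_EM := by
  classical
  intro W V _ T F H hT hns hMD x hx y hy z hz hxy hnxy hxz hzy
  obtain ⟨p, p', q, hpp', hp'q, hpq, hleaf, w0, hw0, hw0'⟩ := h1 W T hT hns
  -- p and q are not adjacent
  have hp'q' : q ≠ p' := fun h => hp'q.ne h.symm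
  have hnpq : ¬ T.Adj p q := by
    intro h
    have := hleaf q h hp'q' p' hp'q.symm
    exact hpp'.ne this.symm
  set L : Finset W := Finset.univ.filter fun w => T.Adj p w ∧ w ≠ p' with hL
  have memL : ∀ w, w ∈ L ↔ T.Adj p w ∧ w ≠ p' := by intro w; simp [hL]
  set A : Finset W := Lᶜ with hA
  have memA : ∀ w, w ∈ A ↔ w ∉ L := by intro w; simp [hA]
  have hpA : p ∈ A := by rw [memA, memL]; rintro ⟨h, -⟩; exact T.loopless.irrefl p h
  have hp'A : p' ∈ A := by rw [memA, memL]; rintro ⟨-, h⟩; exact h rfl
  have hqA : q ∈ A := by rw [memA, memL]; rintro ⟨h, -⟩; exact hnpq h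
  have hcard : A.card + L.card = Fintype.card W := by
    rw [hA, Finset.card_compl]
    have := L.card_le_univ
    omega
  have hLpos : 1 ≤ L.card := Finset.card_pos.mpr ⟨w0, (memL w0).2 ⟨hw0, hw0'⟩⟩
  have hLA : ∀ b, b ∉ (A : Set W) → ∀ u, T.Adj b u → u = p := by
    intro b hb u hu
    have hb' : b ∈ L := by
      by_contra h
      exact hb (by simpa using (memA b).2 h)
    rw [memL] at hb'
    exact hleaf b hb'.1 hb'.2 u hu
  set S : Finset W := {p, p', q} with hS
  have memS : ∀ w, w ∈ S ↔ w = p ∨ w = p' ∨ w = q := by intro w; simp [hS]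
  have hSA : S ⊆ A := by
    intro w hw
    rw [memS] at hw
    rcases hw with rfl | rfl | rfl <;> assumption
  have hpS : p ∈ S := by rw [memS]; left; rfl
  have hp'S : p' ∈ S := by rw [memS]; right; left; rfl
  have hqS : q ∈ S := by rw [memS]; right; right; rfl
  have hAc2 : 2 ≤ A.card := by
    have : ({p, q} : Finset W) ⊆ A := by
      intro w hw
      simp only [Finset.mem_insert, Finset.mem_singleton] at hw
      rcases hw with rfl | rfl <;> assumption
    have h3 := Finset.card_le_card this
    rw [Finset.card_pair hpq] at h3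
    exact h3
  -- connectedness
  have hSc : (T.induce (S : Set W)).Connected := by
    have e1 : (T.induce (S : Set W)).Adj ⟨p, by simpa using hpS⟩ ⟨p', by simpa using hp'S⟩ := hpp'
    have e2 : (T.induce (S : Set W)).Adj ⟨p', by simpa using hp'S⟩ ⟨q, by simpa using hqS⟩ := hp'q
    have hr : ∀ v : (S : Set W), (T.induce (S : Set W)).Reachable v
        ⟨p', by simpa using hp'S⟩ := by
      rintro ⟨v, hv⟩
      have hv' : v ∈ S := by simpa using hv
      rw [memS] at hv'
      rcases hv' with rfl | rfl | rfl
      · exact e1.reachable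
      · exact Reachable.refl _
      · exact e2.symm.reachable
    exact { preconnected := fun u v => (hr u).trans (hr v).symm
            nonempty := ⟨⟨p, by simpa using hpS⟩⟩ }
  have hAc : (T.induce (A : Set W)).Connected := by
    have hpA' : p ∈ (A : Set W) := by simpa using hpA
    have hr : ∀ v : (A : Set W), (T.induce (A : Set W)).Reachable v ⟨p, hpA'⟩ := by
      rintro ⟨v, hv⟩
      obtain ⟨w⟩ := hT.1.preconnected v p
      exact em_reach T (A : Set W) p hpA' hLA v w hv
    exact { preconnected := fun u v => (hr u).trans (hr v).symm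
            nonempty := ⟨⟨p, hpA'⟩⟩ }
  -- the map on S
  set φ : W → V := fun w => if w = p then x else if w = p' then z else y with hφ
  have φp : φ p = x := by simp [hφ]
  have φp' : φ p' = z := by simp [hφ, hpp'.ne.symm]
  have φq : φ q = y := by simp [hφ, hpq.symm, hp'q']
  have hAD : A.card ≤ (Fintype.card W - 2) + 1 := by omega
  obtain ⟨ψ, hψS, hψH, hψi, hψa⟩ := h2 W V T F H (Fintype.card W - 2) hT.2 hMD S A φ hSA hAD
    hSc hAc
    (by
      intro w hw
      rw [memS] at hw
      rcases hw with rfl | rfl | rfl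
      · rw [φp]; exact hx
      · rw [φp']; exact hz
      · rw [φq]; exact hy)
    (by
      intro u hu w hw h
      rw [memS] at hu hw
      have n1 : x ≠ z := hxz.ne
      have n2 : z ≠ y := hzy.ne
      rcases hu with rfl | rfl | rfl <;> rcases hw with rfl | rfl | rfl
      · rfl
      · rw [φp, φp'] at h; exact absurd h n1
      · rw [φp, φq] at h; exact absurd h hxy
      · rw [φp, φp'] at h; exact absurd h.symm n1
      · rfl
      · rw [φp', φq] at h; exact absurd h n2
      · rw [φp, φq] at h; exact absurd h.symm hxy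
      · rw [φp', φq] at h; exact absurd h.symm n2
      · rfl)
    (by
      intro u hu w hw h
      rw [memS] at hu hw
      rcases hu with rfl | rfl | rfl <;> rcases hw with rfl | rfl | rfl
      · exact absurd h (T.loopless.irrefl _)
      · rw [φp, φp']; exact hxz
      · exact absurd h hnpq
      · rw [φp, φp']; exact hxz.symm
      · exact absurd h (T.loopless.irrefl _)
      · rw [φp', φq]; exact hzy
      · exact absurd h.symm hnpq
      · rw [φp', φq]; exact hzy.symm
      · exact absurd h (T.loopless.irrefl _))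
  have ψp : ψ p = x := by rw [hψS p hpS, φp]
  have ψq : ψ q = y := by rw [hψS q hqS, φq]
  obtain ⟨I, hIH, hIx, hIc⟩ := hMD x hx
  -- free neighbours
  set U : Finset V := A.image ψ with hU
  have hUc : U.card ≤ A.card := Finset.card_image_le
  have hcap : (I ∩ U).card + 2 ≤ A.card := by
    have hsub : I ∩ U ⊆ (U.erase x).erase y := by
      intro v hv
      rw [Finset.mem_inter] at hv
      rw [Finset.mem_erase, Finset.mem_erase]
      refine ⟨?_, ?_, hv.2⟩
      · rintro rfl
        exact hnxy (hIx _ hv.1)
      · rintro rfl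
        exact F.loopless.irrefl _ (hIx _ hv.1)
    have hxU : x ∈ U := by rw [hU, Finset.mem_image]; exact ⟨p, hpA, ψp⟩
    have hyU : y ∈ U := by rw [hU, Finset.mem_image]; exact ⟨q, hqA, ψq⟩
    have hyU' : y ∈ U.erase x := Finset.mem_erase.mpr ⟨hxy.symm, hyU⟩
    have c1 := Finset.card_le_card hsub
    rw [Finset.card_erase_of_mem hyU', Finset.card_erase_of_mem hxU] at c1
    have c2 : 2 ≤ U.card := by
      have : ({x, y} : Finset V) ⊆ U := by
        intro w hw
        simp only [Finset.mem_insert, Finset.mem_singleton] at hw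
        rcases hw with rfl | rfl <;> assumption
      have h3 := Finset.card_le_card this
      rw [Finset.card_pair hxy] at h3
      exact h3
    omega
  have hfree : L.card ≤ (I \ U).card := by
    have := Finset.card_sdiff_add_card_inter I U
    omega
  obtain ⟨f, hf, hfi⟩ : ∃ f : W → V, (∀ w ∈ L, f w ∈ I \ U) ∧
      (∀ u ∈ L, ∀ w ∈ L, f u = f w → u = w) := by
    obtain ⟨J, hJ, hJc⟩ := Finset.exists_subset_card_eq hfree
    have e : L ≃ J := Finset.equivOfCardEq hJc.symm
    refine ⟨fun w => if hw : w ∈ L then (e ⟨w, hw⟩ : V) else x, ?_, ?_⟩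
    · intro w hw
      simp only [hw, dif_pos]
      exact hJ (e ⟨w, hw⟩).2
    · intro u hu w hw h
      simp only [hu, hw, dif_pos] at h
      have := e.injective (Subtype.ext h)
      simpa using this
  set χ : W → V := fun w => if w ∈ L then f w else ψ w with hχ
  have χL : ∀ w ∈ L, χ w = f w := by intro w hw; simp [hχ, hw]
  have χA : ∀ w, w ∉ L → χ w = ψ w := by intro w hw; simp [hχ, hw]
  have hpL : p ∉ L := (memA p).1 hpA
  have hcross : ∀ u ∈ L, ∀ w, w ∉ L → f u ≠ ψ w := by
    intro u hu w hw h
    have h3 := (Finset.mem_sdiff.1 (hf u hu)).2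
    apply h3
    rw [hU, Finset.mem_image]
    exact ⟨w, (memA w).2 hw, h.symm⟩
  have hadj : ∀ u w, T.Adj u w → F.Adj (χ u) (χ w) := by
    have key : ∀ u ∈ L, ∀ w, T.Adj u w → F.Adj (χ u) (χ w) := by
      intro u hu w h
      have hw : w = p := hleaf u ((memL u).1 hu).1 ((memL u).1 hu).2 w h
      subst hw
      rw [χL u hu, χA _ hpL, ψp]
      exact (hIx _ (Finset.mem_sdiff.1 (hf u hu)).1).symm
    intro u w h
    by_cases hu : u ∈ L
    · exact key u hu w h
    · by_cases hw : w ∈ L
      · exact (key w hw u h.symm).symm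
      · rw [χA u hu, χA w hw]
        exact hψa u ((memA u).2 hu) w ((memA w).2 hw) h
  have hinj : Function.Injective χ := by
    intro u w h
    by_cases hu : u ∈ L <;> by_cases hw : w ∈ L
    · rw [χL u hu, χL w hw] at h
      exact hfi u hu w hw h
    · rw [χL u hu, χA w hw] at h
      exact absurd h (hcross u hu w hw)
    · rw [χA u hu, χL w hw] at h
      exact absurd h.symm (hcross w hw u hu)
    · rw [χA u hu, χA w hw] at h
      exact hψi u ((memA u).2 hu) w ((memA w).2 hw) h
  exact ⟨⟨⟨χ, fun {a b} h => hadj a b h⟩, hinj⟩⟩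

end Pool.Agent.Helper32.CT
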